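import Pool.Agent.Lib_MP_b9d69a.Pub
import Pool.Agent.Lib_MP_b9d69a.GRM

set_option autoImplicit false
open scoped Manifold Topology
open Pool.Agent.CL

namespace Pool.Agent.Results.MP_b9d69a_an.GrowthReturns

/-- For EVERY `C^∞` diffeomorphism `f` of a compact smooth manifold `M`, with a metric which is
locally bi-Lipschitz to the charts, and every point `x`: either the local `C^∞` closing lemma holds
for `f` at `x`, or near `x` returns are not faster than a fixed power of `k` times the growth of
the derivatives along the orbit. -/
theorem result (n : ℕ) (M : Type) [MetricSpace M] [ChartedSpace (Eu n) M]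
    (hM : IsSmooth n M) [CompactSpace M] (hd : LocBiLip n M) (f : Dif n M) (x : M) :
    LocalClosingAt f x ∨ GrowthReturnsAt (fn f) x := by
  haveI : IsManifold 𝓘(ℝ, Eu n) ((⊤ : ℕ∞) : WithTop ℕ∞) M := hM
  by_cases h : LocalClosingAt f x
  · exact Or.inl h
  · exact Or.inr (growth_returns hd f x (fun hc => h ((localClosingAt_iff f x).mpr hc)))

end Pool.Agent.Results.MP_b9d69a_an.GrowthReturns
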