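import Pool.Agent.Lib_MP_b9d69a.Pub

set_option autoImplicit false
open scoped Manifold Topology
open Pool.Agent.CL

namespace Pool.Agent.Results.MP_b9d69a_an.LocalClosing

/-- For EVERY `C^∞` diffeomorphism `f` of a smooth manifold `M` and every nonwandering point `x`
of `f`: either the local `C^∞` closing lemma holds for `f` at `x`, or the recurrence of `f` near
`x` is hierarchical and every neighbourhood of `x` contains uncountably many nonwandering
points. -/
theorem result (n : ℕ) (M : Type) [TopologicalSpace M] [ChartedSpace (Eu n) M]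
    (hM : IsSmooth n M) [T2Space M] (f : Dif n M)
    (x : M) (hx : x ∈ nonwandering (fn f)) :
    LocalClosingAt f x ∨
      (HierarchicalAt (n := n) (fn f) x ∧
        ∀ U ∈ 𝓝 x, ¬ (U ∩ nonwandering (fn f)).Countable) := by
  haveI : IsManifold 𝓘(ℝ, Eu n) ((⊤ : ℕ∞) : WithTop ℕ∞) M := hM
  by_cases h : LocalClosingAt f x
  · exact Or.inl h
  · have h2 : HierarchicalAt (n := n) (fn f) x :=
      closing_hier f x (fun hc => h ((localClosingAt_iff f x).mpr hc))
    exact Or.inr ⟨h2, h2.polyPerfectAt.uncountable hx⟩

end Pool.Agent.Results.MP_b9d69a_an.LocalClosing
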