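import Pool.Agent.Lib_MP_b9d69a.Pub
import Pool.Agent.Lib_MP_b9d69a.ERG
import Pool.Agent.Lib_MP_b9d69a.ERM

set_option autoImplicit false
open scoped Manifold Topology
open Pool.Agent.CL

namespace Pool.Agent.Results.MP_b9d69a_an.LogHolderMeasures

/-- For every compact boundaryless smooth manifold `M` there is a residual set of `C^∞`
diffeomorphisms `f` of `M` such that near every point `x` which is not a limit of periodic points
all invariant probability measures of `f` are log-Hölder, with the same constant. -/
theorem result (n : ℕ) (M : Type) [TopologicalSpace M] [ChartedSpace (Eu n) M]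
    (hM : IsSmooth n M) [CompactSpace M] [T2Space M] [MeasurableSpace M] [BorelSpace M] :
    ∀ᶠ f : Dif n M in @residual (Dif n M) (smoothTop n M),
      ∀ x ∉ closure (Function.periodicPts (fn f)), LogHolderAt (n := n) (fn f) x := by
  haveI : IsManifold 𝓘(ℝ, Eu n) ((⊤ : ℕ∞) : WithTop ℕ∞) M := hM
  rw [smoothTop_eq]
  filter_upwards [generic n M] with f hf x hx
  have h : ExpReturnsAt (n := n) (fn f) x := exp_returns f x (hf x hx)
  exact logHolder_of_expReturns (fn f) x h

end Pool.Agent.Results.MP_b9d69a_an.LogHolderMeasures
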