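import Pool.Agent.Lib_MP_b9d69a.Pub

set_option autoImplicit false
open scoped Manifold Topology
open Pool.Agent.CL

namespace Pool.Agent.Results.MP_b9d69a_an.PolynomialGaps

/-- For every compact boundaryless smooth manifold `M` there is a residual set of `C^∞`
diffeomorphisms `f` of `M` (for the `C^∞` topology of the frozen statement) such that every
nonwandering point `x` of `f` which is not a limit of periodic points is a point at which the
recurrence is hierarchical and every neighbourhood of which contains uncountably many nonwandering
points; and every isolated point of the nonwandering set is periodic. -/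
theorem result (n : ℕ) (M : Type) [TopologicalSpace M] [ChartedSpace (Eu n) M]
    (hM : IsSmooth n M) [CompactSpace M] [T2Space M] :
    ∀ᶠ f : Dif n M in @residual (Dif n M) (smoothTop n M),
      (∀ x ∈ nonwandering (fn f), x ∉ closure (Function.periodicPts (fn f)) →
        HierarchicalAt (n := n) (fn f) x ∧
          ∀ U ∈ 𝓝 x, ¬ (U ∩ nonwandering (fn f)).Countable) ∧
      ∀ x ∈ nonwandering (fn f), ∀ U ∈ 𝓝 x, U ∩ nonwandering (fn f) ⊆ {x} →
        x ∈ Function.periodicPts (fn f) := by
  haveI : IsManifold 𝓘(ℝ, Eu n) ((⊤ : ℕ∞) : WithTop ℕ∞) M := hM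
  rw [smoothTop_eq]
  filter_upwards [generic n M] with f hf
  have key : ∀ x ∈ nonwandering (fn f), x ∉ closure (Function.periodicPts (fn f)) →
      HierarchicalAt (n := n) (fn f) x ∧
        ∀ U ∈ 𝓝 x, ¬ (U ∩ nonwandering (fn f)).Countable := by
    intro x hx hcl
    have h : HierarchicalAt (n := n) (fn f) x := closing_hier f x (hf x hcl)
    exact ⟨h, h.polyPerfectAt.uncountable hx⟩
  refine ⟨key, fun x hx U hU hUx => ?_⟩
  by_contra hper
  by_cases hcl : x ∈ closure (Function.periodicPts (fn f))
  · exact hper (periodic_of_isolated (fn f) x hcl U hU hUx)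
  · exact (key x hx hcl).2 U hU ((Set.countable_singleton x).mono hUx)

end Pool.Agent.Results.MP_b9d69a_an.PolynomialGaps
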